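import Mathlib

/-!
# Weakly integrable submanifolds and complete intersections in Euclidean space
-/

namespace Pool.Agent.V11196.WI

open scoped ContDiff

/-- `L` is a properly embedded smooth submanifold of dimension `k` (without boundary) of Euclidean
space `𝔼^(k+m)`: a closed subset which near each of its points is the zero set of a smooth submersion
to `𝔼^m`.  (Equivalently, `L` is the image of an injective proper immersion of a `k`-manifold.) -/
def IsProperSubmanifold (k m : ℕ) (L : Set (EuclideanSpace ℝ (Fin (k + m)))) : Prop :=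
  IsClosed L ∧ ∀ p ∈ L, ∃ (U : Set (EuclideanSpace ℝ (Fin (k + m))))
    (f : EuclideanSpace ℝ (Fin (k + m)) → EuclideanSpace ℝ (Fin m)),
    IsOpen U ∧ p ∈ U ∧ ContDiffOn ℝ ∞ f U ∧ (∀ x ∈ U, Function.Surjective (fderiv ℝ f x)) ∧
      L ∩ U = {x | x ∈ U ∧ f x = 0}

/-- `L ⊆ 𝔼^(k+m)` is weakly integrable: there is a smooth submersion `Φ : 𝔼^(k+m) → 𝔼^m` with
`L ⊆ Φ⁻¹(0)`. -/
def IsWeaklyIntegrable (k m : ℕ) (L : Set (EuclideanSpace ℝ (Fin (k + m)))) : Prop :=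
  ∃ Φ : EuclideanSpace ℝ (Fin (k + m)) → EuclideanSpace ℝ (Fin m), ContDiff ℝ ∞ Φ ∧
    (∀ x, Function.Surjective (fderiv ℝ Φ x)) ∧ L ⊆ Φ ⁻¹' {0}

/-- `L ⊆ 𝔼^(k+m)` is a complete intersection: there is a smooth map `Ξ : 𝔼^(k+m) → 𝔼^m` with regular
value `0` such that `L = Ξ⁻¹(0)`. -/
def IsCompleteIntersection (k m : ℕ) (L : Set (EuclideanSpace ℝ (Fin (k + m)))) : Prop :=
  ∃ Ξ : EuclideanSpace ℝ (Fin (k + m)) → EuclideanSpace ℝ (Fin m), ContDiff ℝ ∞ Ξ ∧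
    (∀ x, Ξ x = 0 → Function.Surjective (fderiv ℝ Ξ x)) ∧ L = Ξ ⁻¹' {0}

end Pool.Agent.V11196.WI
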