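import Pool.Agent.V11196.WI.Frame

namespace Pool.Agent.V11196.WI

open scoped ContDiff
open Metric Pool.Agent.Helper775.Hairy

abbrev E6 := EuclideanSpace ℝ (Fin (3 + 3))

/-- The example: the disjoint union of `S² × ℝ` and a 3-plane. -/
def LL : Set E6 :=
  {p | (p 0 ^ 2 + p 1 ^ 2 + p 2 ^ 2 = 1 ∧ p 4 = 0 ∧ p 5 = 0) ∨ (p 0 = 0 ∧ p 1 = 0 ∧ p 2 = 0)}

/-- coordinates -/
noncomputable def cd (i : Fin (3 + 3)) : E6 →L[ℝ] ℝ := EuclideanSpace.proj i

@[simp] lemma cd_apply (i : Fin (3 + 3)) (p : E6) : cd i p = p i := rfl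

lemma coord_fderiv (i : Fin (3 + 3)) (p : E6) : HasFDerivAt (fun q : E6 => q i) (cd i) p :=
  (cd i).hasFDerivAt

lemma isClosed_LL : IsClosed LL := by
  have hc : ∀ i : Fin (3 + 3), Continuous fun q : E6 => q i := fun i => (cd i).continuous
  have h1 : IsClosed {p : E6 | p 0 ^ 2 + p 1 ^ 2 + p 2 ^ 2 = 1 ∧ p 4 = 0 ∧ p 5 = 0} :=
    (isClosed_eq (((hc 0).pow 2 |>.add ((hc 1).pow 2)).add ((hc 2).pow 2)) continuous_const).inter
      ((isClosed_eq (hc 4) continuous_const).inter (isClosed_eq (hc 5) continuous_const))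
  have h2 : IsClosed {p : E6 | p 0 = 0 ∧ p 1 = 0 ∧ p 2 = 0} :=
    (isClosed_eq (hc 0) continuous_const).inter
      ((isClosed_eq (hc 1) continuous_const).inter (isClosed_eq (hc 2) continuous_const))
  exact h1.union h2

/-- derivative of a map to `E3` given by its components -/
lemma hasFDerivAt_vec {f0 f1 f2 : E6 → ℝ} {g0 g1 g2 : E6 →L[ℝ] ℝ} {p : E6}
    (h0 : HasFDerivAt f0 g0 p) (h1 : HasFDerivAt f1 g1 p) (h2 : HasFDerivAt f2 g2 p) :
    ∃ G : E6 →L[ℝ] E3, HasFDerivAt (fun q => (!₂[f0 q, f1 q, f2 q] : E3)) G p ∧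
      ∀ v, G v = !₂[g0 v, g1 v, g2 v] := by
  let G : E6 →L[ℝ] E3 := ((EuclideanSpace.equiv (Fin 3) ℝ).symm : (Fin 3 → ℝ) →L[ℝ] E3).comp
    (ContinuousLinearMap.pi ![g0, g1, g2])
  refine ⟨G, ?_, ?_⟩
  · have h : HasFDerivAt (fun q => (![f0 q, f1 q, f2 q] : Fin 3 → ℝ))
        (ContinuousLinearMap.pi ![g0, g1, g2]) p := by
      rw [hasFDerivAt_pi']
      intro i
      fin_cases i
      · exact h0
      · exact h1
      · exact h2
    exact ((EuclideanSpace.equiv (Fin 3) ℝ).symm.hasFDerivAt).comp p h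
  · intro v
    ext i
    fin_cases i <;> rfl

lemma contDiff_vec {f0 f1 f2 : E6 → ℝ} (h0 : ContDiff ℝ ∞ f0) (h1 : ContDiff ℝ ∞ f1)
    (h2 : ContDiff ℝ ∞ f2) : ContDiff ℝ ∞ (fun q => (!₂[f0 q, f1 q, f2 q] : E3)) := by
  have h : ContDiff ℝ ∞ (fun q => (![f0 q, f1 q, f2 q] : Fin 3 → ℝ)) := by
    rw [contDiff_pi]
    intro i
    fin_cases i
    · exact h0
    · exact h1
    · exact h2
  exact (EuclideanSpace.equiv (Fin 3) ℝ).symm.contDiff.comp h

/-- the squared norm of the first three coordinates -/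
def rr (p : E6) : ℝ := p 0 ^ 2 + p 1 ^ 2 + p 2 ^ 2

noncomputable def drr (p : E6) : E6 →L[ℝ] ℝ :=
  (2 * p 0) • cd 0 + (2 * p 1) • cd 1 + (2 * p 2) • cd 2

lemma rr_fderiv (p : E6) : HasFDerivAt rr (drr p) p := by
  have h := (((coord_fderiv 0 p).pow 2).add ((coord_fderiv 1 p).pow 2)).add
    ((coord_fderiv 2 p).pow 2)
  have e : (2 • p 0 ^ (2 - 1)) • cd 0 + (2 • p 1 ^ (2 - 1)) • cd 1 + (2 • p 2 ^ (2 - 1)) • cd 2
      = drr p := by
    simp [drr]
  rw [e] at h
  exact h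

lemma coord_smooth (i : Fin (3 + 3)) : ContDiff ℝ ∞ (fun q : E6 => q i) := (cd i).contDiff

lemma rr_smooth : ContDiff ℝ ∞ rr :=
  (((coord_smooth 0).pow 2).add ((coord_smooth 1).pow 2)).add ((coord_smooth 2).pow 2)

lemma isProperSubmanifold_LL : IsProperSubmanifold 3 3 LL := by
  refine ⟨isClosed_LL, ?_⟩
  have hrc : Continuous rr := rr_smooth.continuous
  rintro p (hp | hp)
  · refine ⟨{q | 1 / 2 < rr q}, fun q => !₂[rr q - 1, q 4, q 5],
      isOpen_lt continuous_const hrc, ?_, ?_, ?_, ?_⟩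
    · show 1 / 2 < p 0 ^ 2 + p 1 ^ 2 + p 2 ^ 2
      rw [hp.1]; norm_num
    · exact (contDiff_vec (rr_smooth.sub contDiff_const) (coord_smooth 4)
        (coord_smooth 5)).contDiffOn
    · intro q hq w
      obtain ⟨G, hG, hGv⟩ := hasFDerivAt_vec ((rr_fderiv q).sub_const 1) (coord_fderiv 4 q)
        (coord_fderiv 5 q)
      rw [hG.fderiv]
      have hq' : (1 / 2 : ℝ) < q 0 ^ 2 + q 1 ^ 2 + q 2 ^ 2 := hq
      have hne : q 0 ^ 2 + q 1 ^ 2 + q 2 ^ 2 ≠ 0 := by linarith
      refine ⟨!₂[w 0 / (2 * (q 0 ^ 2 + q 1 ^ 2 + q 2 ^ 2)) * q 0,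
        w 0 / (2 * (q 0 ^ 2 + q 1 ^ 2 + q 2 ^ 2)) * q 1,
        w 0 / (2 * (q 0 ^ 2 + q 1 ^ 2 + q 2 ^ 2)) * q 2, 0, w 1, w 2], ?_⟩
      rw [hGv]
      ext i
      fin_cases i
      · simp [drr]
        field_simp
      · simp
      · simp
    · ext q
      constructor
      · rintro ⟨h1 | h1, h2⟩
        · refine ⟨h2, ?_⟩
          ext i
          fin_cases i
          · simpa [rr, sub_eq_zero] using h1.1
          · exact h1.2.1
          · exact h1.2.2
        · exfalso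
          have h2' : (1 / 2 : ℝ) < q 0 ^ 2 + q 1 ^ 2 + q 2 ^ 2 := h2
          rw [h1.1, h1.2.1, h1.2.2] at h2'
          norm_num at h2'
      · rintro ⟨h1, h2⟩
        refine ⟨Or.inl ⟨?_, ?_, ?_⟩, h1⟩
        · have := congrArg (fun v : E3 => v 0) h2
          simpa [rr, sub_eq_zero] using this
        · have := congrArg (fun v : E3 => v 1) h2
          simpa using this
        · have := congrArg (fun v : E3 => v 2) h2
          simpa using this
  · refine ⟨{q | rr q < 1 / 2}, fun q => !₂[q 0, q 1, q 2],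
      isOpen_lt hrc continuous_const, ?_, ?_, ?_, ?_⟩
    · show p 0 ^ 2 + p 1 ^ 2 + p 2 ^ 2 < 1 / 2
      rw [hp.1, hp.2.1, hp.2.2]; norm_num
    · exact (contDiff_vec (coord_smooth 0) (coord_smooth 1) (coord_smooth 2)).contDiffOn
    · intro q hq w
      obtain ⟨G, hG, hGv⟩ := hasFDerivAt_vec (coord_fderiv 0 q) (coord_fderiv 1 q)
        (coord_fderiv 2 q)
      rw [hG.fderiv]
      refine ⟨!₂[w 0, w 1, w 2, 0, 0, 0], ?_⟩
      rw [hGv]
      ext i
      fin_cases i <;> simp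
    · ext q
      constructor
      · rintro ⟨h1 | h1, h2⟩
        · exfalso
          have h2' : q 0 ^ 2 + q 1 ^ 2 + q 2 ^ 2 < 1 / 2 := h2
          rw [h1.1] at h2'
          norm_num at h2'
        · refine ⟨h2, ?_⟩
          ext i
          fin_cases i
          · exact h1.1
          · exact h1.2.1
          · exact h1.2.2
      · rintro ⟨h1, h2⟩
        refine ⟨Or.inr ⟨?_, ?_, ?_⟩, h1⟩
        · have := congrArg (fun v : E3 => v 0) h2
          simpa using this
        · have := congrArg (fun v : E3 => v 1) h2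
          simpa using this
        · have := congrArg (fun v : E3 => v 2) h2
          simpa using this

/-- The components of the submersion. -/
noncomputable def f0 (p : E6) : ℝ := (1 - rr p) * (p 0 + rr p + rr p * Real.exp (p 3))
noncomputable def f1 (p : E6) : ℝ := (1 - rr p) * p 1 + rr p * p 4
noncomputable def f2 (p : E6) : ℝ := (1 - rr p) * p 2 + rr p * p 5

noncomputable def PhiMap (p : E6) : E3 := !₂[f0 p, f1 p, f2 p]

lemma phi_smooth : ContDiff ℝ ∞ PhiMap := by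
  apply contDiff_vec
  · exact (contDiff_const.sub rr_smooth).mul (((coord_smooth 0).add rr_smooth).add
      (rr_smooth.mul (Real.contDiff_exp.comp (coord_smooth 3))))
  · exact ((contDiff_const.sub rr_smooth).mul (coord_smooth 1)).add (rr_smooth.mul (coord_smooth 4))
  · exact ((contDiff_const.sub rr_smooth).mul (coord_smooth 2)).add (rr_smooth.mul (coord_smooth 5))

lemma phi_fderiv (p : E6) (v : E6) : fderiv ℝ PhiMap p v =
    !₂[(1 - rr p) * (v 0 + drr p v + (drr p v * Real.exp (p 3) + rr p * (Real.exp (p 3) * v 3)))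
        - drr p v * (p 0 + rr p + rr p * Real.exp (p 3)),
      (1 - rr p) * v 1 - drr p v * p 1 + (drr p v * p 4 + rr p * v 4),
      (1 - rr p) * v 2 - drr p v * p 2 + (drr p v * p 5 + rr p * v 5)] := by
  have hr := rr_fderiv p
  have h0 : HasFDerivAt f0 _ p := (hr.const_sub 1).mul (((coord_fderiv 0 p).add hr).add
    (hr.mul (coord_fderiv 3 p).exp))
  have h1 : HasFDerivAt f1 _ p := ((hr.const_sub 1).mul (coord_fderiv 1 p)).add
    (hr.mul (coord_fderiv 4 p))
  have h2 : HasFDerivAt f2 _ p := ((hr.const_sub 1).mul (coord_fderiv 2 p)).add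
    (hr.mul (coord_fderiv 5 p))
  obtain ⟨G, hG, hGv⟩ := hasFDerivAt_vec h0 h1 h2
  have : HasFDerivAt PhiMap G p := hG
  rw [this.fderiv, hGv]
  ext i
  fin_cases i <;> simp <;> ring

lemma phi_submersion (p : E6) : Function.Surjective (fderiv ℝ PhiMap p) := by
  intro w
  have hrr : rr p = p 0 ^ 2 + p 1 ^ 2 + p 2 ^ 2 := rfl
  by_cases h0 : rr p = 0
  · have e0 : p 0 = 0 := by nlinarith [sq_nonneg (p 0), sq_nonneg (p 1), sq_nonneg (p 2)]
    have e1 : p 1 = 0 := by nlinarith [sq_nonneg (p 0), sq_nonneg (p 1), sq_nonneg (p 2)]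
    have e2 : p 2 = 0 := by nlinarith [sq_nonneg (p 0), sq_nonneg (p 1), sq_nonneg (p 2)]
    refine ⟨!₂[w 0, w 1, w 2, 0, 0, 0], ?_⟩
    rw [phi_fderiv]
    ext i
    fin_cases i <;> simp [drr, h0, e0, e1, e2]
  · by_cases h1 : rr p = 1
    · have hp0 : -1 ≤ p 0 := by
        rw [hrr] at h1
        nlinarith [sq_nonneg (p 1), sq_nonneg (p 2), sq_nonneg (p 0 + 1), sq_nonneg (p 0 - 1)]
      have hpos : 0 < p 0 + 1 + Real.exp (p 3) := by
        have := Real.exp_pos (p 3)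
        linarith
      set t : ℝ := w 0 / (2 * (p 0 + 1 + Real.exp (p 3))) with ht
      have hd : 2 * t * (p 0 + 1 + Real.exp (p 3)) = w 0 := by
        rw [ht]; field_simp
      refine ⟨!₂[- t * p 0, - t * p 1, - t * p 2, 0, w 1 + 2 * t * (p 4 - p 1),
        w 2 + 2 * t * (p 5 - p 2)], ?_⟩
      rw [phi_fderiv]
      have hdr : drr p !₂[- t * p 0, - t * p 1, - t * p 2, 0, w 1 + 2 * t * (p 4 - p 1),
        w 2 + 2 * t * (p 5 - p 2)] = - 2 * t := by
        have : p 0 ^ 2 + p 1 ^ 2 + p 2 ^ 2 = 1 := by rw [← hrr]; exact h1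
        simp [drr]
        linear_combination (-2 * t) * this
      rw [hdr, h1]
      ext i
      fin_cases i
      · simp
        linear_combination hd
      · simp
        ring
      · simp
        ring
    · have h1' : 1 - rr p ≠ 0 := fun h => h1 (by linarith)
      have he := (Real.exp_pos (p 3)).ne'
      refine ⟨!₂[0, 0, 0, w 0 / ((1 - rr p) * rr p * Real.exp (p 3)), w 1 / rr p, w 2 / rr p], ?_⟩
      rw [phi_fderiv]
      ext i
      fin_cases i
      · simp [drr]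
        field_simp
      · simp [drr]
        field_simp
      · simp [drr]
        field_simp

lemma isWeaklyIntegrable_LL : IsWeaklyIntegrable 3 3 LL := by
  refine ⟨PhiMap, phi_smooth, phi_submersion, ?_⟩
  rintro p (⟨h1, h2, h3⟩ | ⟨h1, h2, h3⟩)
  · have hr : rr p = 1 := h1
    show PhiMap p = 0
    ext i
    fin_cases i <;> simp [PhiMap, f0, f1, f2, hr, h2, h3]
  · have hr : rr p = 0 := by simp [rr, h1, h2, h3]
    show PhiMap p = 0
    ext i
    fin_cases i <;> simp [PhiMap, f0, f1, f2, hr, h1, h2, h3]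

end Pool.Agent.V11196.WI
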