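import Pool.Agent.Helper104.HairyBall
import Pool.Agent.V11196.WI.Defs

namespace Pool.Agent.V11196.WI

open scoped ContDiff
open Metric Pool.Agent.Helper775.Hairy

/-- `u` is a unit vector; the unit normalization of a nonvanishing map -/
noncomputable def unit (v : E3) : E3 := ‖v‖⁻¹ • v

lemma norm_unit {v : E3} (hv : v ≠ 0) : ‖unit v‖ = 1 := by
  rw [unit, norm_smul, norm_inv, norm_norm, inv_mul_cancel₀ (norm_ne_zero_iff.2 hv)]

/-- There is a continuous nonvanishing field orthogonal to `h`. -/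
def HasPerp (h : sphere (0 : E3) 1 → E3) : Prop :=
  ∃ b : sphere (0 : E3) 1 → E3, Continuous b ∧ (∀ x, b x ≠ 0) ∧ ∀ x, inner ℝ (h x) (b x) = 0

lemma HasPerp.of_close {h h' : sphere (0 : E3) 1 → E3} (hh : HasPerp h) (hc' : Continuous h')
    (h0' : ∀ x, h' x ≠ 0) (hclose : ∀ x, ‖h x - h' x‖ < ‖h' x‖) : HasPerp h' := by
  obtain ⟨b, hb, hb0, hbp⟩ := hh
  refine ⟨fun x => (‖h' x‖ ^ 2) • b x - (inner ℝ (h' x) (b x)) • h' x, ?_, ?_, ?_⟩
  · exact ((hc'.norm.pow 2).smul hb).sub ((hc'.inner (𝕜 := ℝ) hb).smul hc')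
  · intro x hx
    have hn : ‖h' x‖ ≠ 0 := norm_ne_zero_iff.2 (h0' x)
    -- `b x` would be parallel to `h' x`
    have h1 : (‖h' x‖ ^ 2) • b x = (inner ℝ (h' x) (b x)) • h' x := sub_eq_zero.1 hx
    have h2 : b x = ((‖h' x‖ ^ 2)⁻¹ * inner ℝ (h' x) (b x)) • h' x := by
      rw [mul_smul, ← h1, smul_smul, inv_mul_cancel₀ (pow_ne_zero 2 hn), one_smul]
    set c := (‖h' x‖ ^ 2)⁻¹ * inner ℝ (h' x) (b x) with hc
    have hc0 : c ≠ 0 := by
      intro h3
      rw [h3, zero_smul] at h2
      exact hb0 x h2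
    have h3 : inner ℝ (h x) (h' x) = 0 := by
      have := hbp x
      rw [h2, inner_smul_right] at this
      exact (mul_eq_zero.1 this).resolve_left hc0
    have h4 : ‖h x - h' x‖ ^ 2 = ‖h x‖ ^ 2 + ‖h' x‖ ^ 2 := by
      rw [norm_sub_sq_real, h3]
      ring
    have h5 : ‖h x - h' x‖ ^ 2 < ‖h' x‖ ^ 2 :=
      pow_lt_pow_left₀ (hclose x) (norm_nonneg _) two_ne_zero
    nlinarith [sq_nonneg ‖h x‖]
  · intro x
    rw [inner_sub_right, inner_smul_right, inner_smul_right, real_inner_self_eq_norm_sq]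
    ring

/-- Homotopy invariance. -/
lemma HasPerp.homotopy (H : sphere (0 : E3) 1 × unitInterval → E3) (hH : Continuous H)
    (h0 : ∀ p, H p ≠ 0) (hs : HasPerp fun x => H (x, 0)) : HasPerp fun x => H (x, 1) := by
  have hcomp : CompactSpace (sphere (0 : E3) 1) := isCompact_iff_compactSpace.1 (isCompact_sphere _ _)
  have hne : (Set.univ : Set (sphere (0 : E3) 1 × unitInterval)).Nonempty :=
    ⟨(⟨EuclideanSpace.single 0 1, by simp⟩, 0), trivial⟩
  obtain ⟨p0, -, hp0⟩ := isCompact_univ.exists_isMinOn hne hH.norm.continuousOn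
  have hm : 0 < ‖H p0‖ := norm_pos_iff.2 (h0 p0)
  have huc := CompactSpace.uniformContinuous_of_continuous hH
  obtain ⟨δ, hδ, hδ'⟩ := Metric.uniformContinuous_iff.1 huc ‖H p0‖ hm
  have hstep : ∀ s t : unitInterval, dist s t < δ → (HasPerp fun x => H (x, s)) →
      HasPerp fun x => H (x, t) := by
    intro s t hst hs
    refine hs.of_close (hH.comp (by fun_prop)) (fun x => h0 _) fun x => ?_
    have h1 : dist (x, s) (x, t) < δ := by
      rw [Prod.dist_eq, dist_self]
      exact max_lt hδ hst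
    have h2 := hδ' h1
    rw [dist_eq_norm] at h2
    exact lt_of_lt_of_le h2 (hp0 (Set.mem_univ _))
  have hclopen : IsClopen {t : unitInterval | HasPerp fun x => H (x, t)} := by
    constructor
    · rw [← isOpen_compl_iff, Metric.isOpen_iff]
      intro t ht
      refine ⟨δ, hδ, fun s hs hs' => ht (hstep s t ?_ hs')⟩
      exact Metric.mem_ball.1 hs
    · rw [Metric.isOpen_iff]
      intro t ht
      refine ⟨δ, hδ, fun s hs => hstep t s ?_ ht⟩
      rw [dist_comm]
      exact Metric.mem_ball.1 hs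
  have := hclopen.eq_univ ⟨0, hs⟩
  have h1 : (1 : unitInterval) ∈ {t : unitInterval | HasPerp fun x => H (x, t)} := by
    rw [this]; trivial
  exact h1

/-- Three independent continuous fields: the first one has a perpendicular field. -/
lemma hasPerp_of_pair {a b : sphere (0 : E3) 1 → E3} (ha : Continuous a) (hb : Continuous b)
    (hab : ∀ x (c d : ℝ), c • a x + d • b x = 0 → c = 0 ∧ d = 0) : HasPerp a := by
  refine ⟨fun x => (‖a x‖ ^ 2) • b x - (inner ℝ (a x) (b x)) • a x, ?_, ?_, ?_⟩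
  · exact ((ha.norm.pow 2).smul hb).sub ((ha.inner (𝕜 := ℝ) hb).smul ha)
  · intro x hx
    have h1 := hab x (- inner ℝ (a x) (b x)) (‖a x‖ ^ 2) (by
      rw [neg_smul, ← hx, neg_add_eq_sub])
    have h2 : a x = 0 := norm_eq_zero.1 (pow_eq_zero_iff (two_ne_zero) |>.1 h1.2)
    have h3 := hab x 1 0 (by rw [h2]; simp)
    exact one_ne_zero h3.1
  · intro x
    rw [inner_sub_right, inner_smul_right, inner_smul_right, real_inner_self_eq_norm_sq]
    ring

/-- An invertible linear map restricted to the sphere has no perpendicular field. -/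
lemma not_hasPerp_linear (M : E3 →L[ℝ] E3) (hM : Function.Surjective M) :
    ¬ HasPerp fun x : sphere (0 : E3) 1 => M x := by
  rintro ⟨b, hb, hb0, hbp⟩
  refine hairy (fun x => (ContinuousLinearMap.adjoint M) (b x))
    ((ContinuousLinearMap.adjoint M).continuous.comp hb) ?_ ?_
  · intro x hx
    obtain ⟨v, hv⟩ := hM (b x)
    apply hb0 x
    have : inner ℝ (b x) (b x) = 0 := by
      nth_rewrite 2 [← hv]
      rw [← ContinuousLinearMap.adjoint_inner_left, hx, inner_zero_left]
    exact inner_self_eq_zero.1 this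
  · intro x
    rw [ContinuousLinearMap.adjoint_inner_right]
    exact hbp x

end Pool.Agent.V11196.WI
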