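import Pool.Agent.V11196.WI.Example

namespace Pool.Agent.V11196.WI

open scoped ContDiff
open Metric Pool.Agent.Helper775.Hairy MeasureTheory

/-- The difference quotient. -/
noncomputable def KK (Ξ : E6 → E3) (p w : E6) (s : ℝ) : E3 :=
  ∫ t in (0 : ℝ)..1, fderiv ℝ Ξ (p + (t * s) • w) w

lemma continuous_KK {Ξ : E6 → E3} (hΞ : ContDiff ℝ ∞ Ξ) {X : Type*} [TopologicalSpace X]
    {p w : X → E6} {s : X → ℝ} (hp : Continuous p) (hw : Continuous w) (hs : Continuous s) :
    Continuous fun x => KK Ξ (p x) (w x) (s x) := by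
  unfold KK
  apply intervalIntegral.continuous_parametric_intervalIntegral_of_continuous'
  have h1 : Continuous (fderiv ℝ Ξ) := hΞ.continuous_fderiv (by simp)
  have h2 : Continuous fun q : X × ℝ => p q.1 + (q.2 * s q.1) • w q.1 := by fun_prop
  exact (h1.comp h2).clm_apply (hw.comp continuous_fst)

lemma KK_zero (Ξ : E6 → E3) (p w : E6) : KK Ξ p w 0 = fderiv ℝ Ξ p w := by
  simp [KK]

lemma smul_KK {Ξ : E6 → E3} (hΞ : ContDiff ℝ ∞ Ξ) (p w : E6) (s : ℝ) :
    s • KK Ξ p w s = Ξ (p + s • w) - Ξ p := by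
  have hd : ∀ t : ℝ, HasDerivAt (fun t : ℝ => Ξ (p + (t * s) • w))
      (s • fderiv ℝ Ξ (p + (t * s) • w) w) t := by
    intro t
    have h1 : HasDerivAt (fun t : ℝ => p + (t * s) • w) (s • w) t := by
      have := (((hasDerivAt_id t).mul_const s).smul_const w).const_add p
      simpa using this
    have h2 : HasFDerivAt Ξ (fderiv ℝ Ξ (p + (t * s) • w)) (p + (t * s) • w) :=
      (hΞ.differentiable (by simp)).differentiableAt.hasFDerivAt
    have h3 := h2.comp_hasDerivAt t h1
    rw [map_smul] at h3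
    exact h3
  have hc : Continuous fun t : ℝ => s • fderiv ℝ Ξ (p + (t * s) • w) w := by
    have h1 : Continuous (fderiv ℝ Ξ) := hΞ.continuous_fderiv (by simp)
    have h2 : Continuous fun t : ℝ => p + (t * s) • w := by fun_prop
    exact ((h1.comp h2).clm_apply continuous_const).const_smul s
  have h := intervalIntegral.integral_eq_sub_of_hasDerivAt (a := 0) (b := 1)
    (fun t _ => hd t) (hc.intervalIntegrable _ _)
  have h' : (∫ t in (0 : ℝ)..1, s • fderiv ℝ Ξ (p + (t * s) • w) w)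
      = s • ∫ t in (0 : ℝ)..1, fderiv ℝ Ξ (p + (t * s) • w) w :=
    intervalIntegral.integral_smul (𝕜 := ℝ) s (fun t => fderiv ℝ Ξ (p + (t * s) • w) w)
  rw [h'] at h
  rw [KK, h]
  simp

/-- The inclusions of the two factors. -/
noncomputable def ii : E3 →L[ℝ] E6 := LinearMap.toContinuousLinearMap
  { toFun := fun x => !₂[x 0, x 1, x 2, 0, 0, 0]
    map_add' := by intro x y; ext i; fin_cases i <;> simp
    map_smul' := by intro c x; ext i; fin_cases i <;> simp }

lemma ii_apply (x : E3) : ii x = !₂[x 0, x 1, x 2, 0, 0, 0] := rfl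

noncomputable def ee (i : Fin (3 + 3)) : E6 := EuclideanSpace.single i 1

lemma mem_sphere_iff (x : E3) : x ∈ sphere (0 : E3) 1 ↔ x 0 ^ 2 + x 1 ^ 2 + x 2 ^ 2 = 1 := by
  rw [mem_sphere_zero_iff_norm, EuclideanSpace.norm_eq, Real.sqrt_eq_one, Fin.sum_univ_three]
  simp

section

variable {Ξ : E6 → E3} (hΞ : ContDiff ℝ ∞ Ξ) (hreg : ∀ x, Ξ x = 0 → Function.Surjective (fderiv ℝ Ξ x))
  (hL : LL = Ξ ⁻¹' {0})

include hL in
lemma zero_iff (p : E6) : Ξ p = 0 ↔ p ∈ LL := by
  rw [hL]; rfl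

include hΞ hL in
/-- `dΞ` vanishes on the direction `e₃` along `S² × ℝ`. -/
lemma fderiv_e3 {x : E3} (hx : x ∈ sphere (0 : E3) 1) : fderiv ℝ Ξ (ii x) (ee 3) = 0 := by
  have h1 : HasDerivAt (fun t : ℝ => ii x + t • ee 3) (ee 3) 0 := by
    have := ((hasDerivAt_id (0 : ℝ)).smul_const (ee 3)).const_add (ii x)
    simpa using this
  have h2 : HasFDerivAt Ξ (fderiv ℝ Ξ (ii x + (0 : ℝ) • ee 3)) (ii x + (0 : ℝ) • ee 3) :=
    (hΞ.differentiable (by simp)).differentiableAt.hasFDerivAt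
  have h3 := h2.comp_hasDerivAt (0 : ℝ) h1
  have h4 : (Ξ ∘ fun t : ℝ => ii x + t • ee 3) = fun _ => 0 := by
    ext1 t
    show Ξ (ii x + t • ee 3) = 0
    rw [zero_iff hL]
    refine Or.inl ⟨?_, ?_, ?_⟩
    · have := (mem_sphere_iff x).1 hx
      simpa [ii_apply, ee] using this
    · simp [ii_apply, ee]
    · simp [ii_apply, ee]
  rw [h4] at h3
  have h5 := h3.unique (hasDerivAt_const (0 : ℝ) (0 : E3))
  simpa using h5

include hΞ hL in
/-- `dΞ` vanishes on the tangent vectors of the sphere. -/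
lemma fderiv_tangent {x : E3} (hx : x ∈ sphere (0 : E3) 1) {u : E3} (hu : inner ℝ x u = 0) :
    fderiv ℝ Ξ (ii x) (ii u) = 0 := by
  set c : ℝ := u 0 ^ 2 + u 1 ^ 2 + u 2 ^ 2 with hc
  have hc0 : 0 ≤ c := by positivity
  have hne : ∀ t : ℝ, 1 + t ^ 2 * c ≠ 0 := fun t => by positivity
  have hcx := (mem_sphere_iff x).1 hx
  have hux : x 0 * u 0 + x 1 * u 1 + x 2 * u 2 = 0 := by
    rw [PiLp.inner_apply, Fin.sum_univ_three] at hu
    simp at hu
    linarith
  have ha : HasDerivAt (fun t : ℝ => (1 - t ^ 2 * c) / (1 + t ^ 2 * c)) 0 0 := by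
    have h1 : HasDerivAt (fun t : ℝ => 1 - t ^ 2 * c) 0 0 := by
      have := (((hasDerivAt_id (0 : ℝ)).pow 2).mul_const c).const_sub 1
      simpa using this
    have h2 : HasDerivAt (fun t : ℝ => 1 + t ^ 2 * c) 0 0 := by
      have := (((hasDerivAt_id (0 : ℝ)).pow 2).mul_const c).const_add 1
      simpa using this
    refine (h1.div h2 (hne 0)).congr_deriv ?_
    simp
  have hb : HasDerivAt (fun t : ℝ => (2 * t) / (1 + t ^ 2 * c)) 2 0 := by
    have h1 : HasDerivAt (fun t : ℝ => 2 * t) 2 0 := by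
      have := (hasDerivAt_id (0 : ℝ)).const_mul 2
      simpa using this
    have h2 : HasDerivAt (fun t : ℝ => 1 + t ^ 2 * c) 0 0 := by
      have := (((hasDerivAt_id (0 : ℝ)).pow 2).mul_const c).const_add 1
      simpa using this
    refine (h1.div h2 (hne 0)).congr_deriv ?_
    simp
  have h1 : HasDerivAt (fun t : ℝ => ((1 - t ^ 2 * c) / (1 + t ^ 2 * c)) • ii x +
      ((2 * t) / (1 + t ^ 2 * c)) • ii u) ((2 : ℝ) • ii u) 0 := by
    refine ((ha.smul_const (ii x)).add (hb.smul_const (ii u))).congr_deriv ?_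
    simp
  have h0 : (((1 - (0 : ℝ) ^ 2 * c) / (1 + (0 : ℝ) ^ 2 * c)) • ii x +
      ((2 * (0 : ℝ)) / (1 + (0 : ℝ) ^ 2 * c)) • ii u) = ii x := by simp
  have h2 : HasFDerivAt Ξ (fderiv ℝ Ξ (ii x)) (((1 - (0 : ℝ) ^ 2 * c) / (1 + (0 : ℝ) ^ 2 * c)) • ii x +
      ((2 * (0 : ℝ)) / (1 + (0 : ℝ) ^ 2 * c)) • ii u) := by
    rw [h0]
    exact (hΞ.differentiable (by simp)).differentiableAt.hasFDerivAt
  have h3 := h2.comp_hasDerivAt (0 : ℝ) h1
  have h4 : (Ξ ∘ fun t : ℝ => ((1 - t ^ 2 * c) / (1 + t ^ 2 * c)) • ii x +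
      ((2 * t) / (1 + t ^ 2 * c)) • ii u) = fun _ => 0 := by
    ext1 t
    show Ξ (((1 - t ^ 2 * c) / (1 + t ^ 2 * c)) • ii x + ((2 * t) / (1 + t ^ 2 * c)) • ii u) = 0
    rw [zero_iff hL]
    refine Or.inl ⟨?_, ?_, ?_⟩
    · have hn := hne t
      simp only [ii_apply, PiLp.add_apply, PiLp.smul_apply, smul_eq_mul]
      simp
      set A := (1 - t ^ 2 * c) / (1 + t ^ 2 * c) with hA
      set B := (2 * t) / (1 + t ^ 2 * c) with hB
      have hAB : A ^ 2 + B ^ 2 * c = 1 := by
        rw [hA, hB]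
        field_simp
        ring
      linear_combination A ^ 2 * hcx + 2 * A * B * hux + hAB - B ^ 2 * hc
    · simp [ii_apply]
    · simp [ii_apply]
  rw [h4] at h3
  have h5 := h3.unique (hasDerivAt_const (0 : ℝ) (0 : E3))
  rw [map_smul] at h5
  exact (smul_eq_zero.1 h5).resolve_left two_ne_zero

include hΞ hreg hL in
/-- The two normal derivatives are independent along the sphere. -/
lemma normal_independent {x : E3} (hx : x ∈ sphere (0 : E3) 1) (c d : ℝ)
    (h : c • fderiv ℝ Ξ (ii x) (ee 4) + d • fderiv ℝ Ξ (ii x) (ee 5) = 0) : c = 0 ∧ d = 0 := by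
  have hcx := (mem_sphere_iff x).1 hx
  have hz : Ξ (ii x) = 0 := by
    rw [zero_iff hL]
    exact Or.inl ⟨by simpa [ii_apply] using hcx, by simp [ii_apply], by simp [ii_apply]⟩
  have hs := hreg _ hz
  let G : E3 →ₗ[ℝ] E3 :=
    { toFun := fun a => a 0 • fderiv ℝ Ξ (ii x) (ii x) + a 1 • fderiv ℝ Ξ (ii x) (ee 4)
        + a 2 • fderiv ℝ Ξ (ii x) (ee 5)
      map_add' := by
        intro a b
        simp only [PiLp.add_apply, add_smul]
        abel
      map_smul' := by
        intro r a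
        simp only [PiLp.smul_apply, smul_eq_mul, mul_smul, RingHom.id_apply, smul_add] }
  have hG : Function.Surjective G := by
    intro w
    obtain ⟨v, hv⟩ := hs w
    let vx : E3 := !₂[v 0, v 1, v 2]
    have hdec : v = (inner ℝ x vx : ℝ) • ii x + ii (vx - (inner ℝ x vx : ℝ) • x) + v 3 • ee 3
        + v 4 • ee 4 + v 5 • ee 5 := by
      rw [map_sub, map_smul]
      ext i
      fin_cases i <;> simp [ii_apply, ee, vx]
    have ht : inner ℝ x (vx - (inner ℝ x vx : ℝ) • x) = 0 := by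
      rw [inner_sub_right, inner_smul_right, real_inner_self_eq_norm_sq,
        mem_sphere_zero_iff_norm.1 hx]
      ring
    refine ⟨!₂[(inner ℝ x vx : ℝ), v 4, v 5], ?_⟩
    rw [← hv]
    conv_rhs => rw [hdec]
    simp only [map_add, map_smul]
    rw [fderiv_e3 hΞ hL hx, fderiv_tangent hΞ hL hx ht]
    simp [G]
  have hinj : Function.Injective G := LinearMap.injective_iff_surjective.2 hG
  have h1 : G !₂[0, c, d] = 0 := by
    simpa [G] using h
  have h2 : (!₂[0, c, d] : E3) = 0 := hinj (by rw [h1, map_zero])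
  have h3 := congrArg (fun v : E3 => v 1) h2
  have h4 := congrArg (fun v : E3 => v 2) h2
  exact ⟨by simpa using h3, by simpa using h4⟩

include hΞ hreg hL in
/-- `dΞ` restricted to the first factor is onto at the point `(0, e₄)`. -/
lemma linear_onto : Function.Surjective ((fderiv ℝ Ξ (ee 4)).comp ii) := by
  have hz : Ξ (ee 4) = 0 := by
    rw [zero_iff hL]
    exact Or.inr ⟨by simp [ee], by simp [ee], by simp [ee]⟩
  have hy : ∀ v : E6, v 0 = 0 → v 1 = 0 → v 2 = 0 → fderiv ℝ Ξ (ee 4) v = 0 := by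
    intro v h0 h1 h2
    have h3 : HasDerivAt (fun t : ℝ => ee 4 + t • v) v 0 := by
      have := ((hasDerivAt_id (0 : ℝ)).smul_const v).const_add (ee 4)
      simpa using this
    have h4 : HasFDerivAt Ξ (fderiv ℝ Ξ (ee 4 + (0 : ℝ) • v)) (ee 4 + (0 : ℝ) • v) :=
      (hΞ.differentiable (by simp)).differentiableAt.hasFDerivAt
    have h5 := h4.comp_hasDerivAt (0 : ℝ) h3
    have h6 : (Ξ ∘ fun t : ℝ => ee 4 + t • v) = fun _ => 0 := by
      ext1 t
      show Ξ (ee 4 + t • v) = 0
      rw [zero_iff hL]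
      refine Or.inr ⟨?_, ?_, ?_⟩
      · simp [ee, h0]
      · simp [ee, h1]
      · simp [ee, h2]
    rw [h6] at h5
    have h7 := h5.unique (hasDerivAt_const (0 : ℝ) (0 : E3))
    simpa using h7
  intro w
  obtain ⟨v, hv⟩ := hreg _ hz w
  refine ⟨!₂[v 0, v 1, v 2], ?_⟩
  rw [ContinuousLinearMap.comp_apply, ← hv, ← sub_eq_zero, ← map_sub]
  apply hy <;> simp [ii_apply]

include hΞ hreg hL in
theorem contradiction_LL : False := by
  -- first homotopy
  let H1 : sphere (0 : E3) 1 × unitInterval → E3 := fun q => KK Ξ (ii q.1) (ee 4) q.2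
  have hH1 : Continuous H1 := continuous_KK hΞ (by fun_prop) continuous_const (by fun_prop)
  have hz : ∀ x : sphere (0 : E3) 1, Ξ (ii x) = 0 := by
    intro x
    have hcx := (mem_sphere_iff x).1 x.2
    rw [zero_iff hL]
    exact Or.inl ⟨by simpa [ii_apply] using hcx, by simp [ii_apply], by simp [ii_apply]⟩
  have hn1 : ∀ q, H1 q ≠ 0 := by
    rintro ⟨x, s⟩ h
    change KK Ξ (ii x) (ee 4) s = 0 at h
    by_cases hs : (s : ℝ) = 0
    · rw [hs, KK_zero] at h
      have := normal_independent hΞ hreg hL x.2 1 0 (by rw [h]; simp)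
      exact one_ne_zero this.1
    · have h1 := smul_KK hΞ (ii x) (ee 4) s
      rw [h, smul_zero, hz x, sub_zero] at h1
      have h2 := (zero_iff hL _).1 h1.symm
      rcases h2 with h2 | h2
      · have := h2.2.1
        simp [ii_apply, ee] at this
        exact hs (by rw [this]; simp)
      · have hcx := (mem_sphere_iff x).1 x.2
        obtain ⟨a0, a1, a2⟩ := h2
        simp [ii_apply, ee] at a0 a1 a2
        rw [a0, a1, a2] at hcx
        norm_num at hcx
  have hp0 : HasPerp fun x => H1 (x, 0) := by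
    have hc : ∀ v : E6, Continuous fun x : sphere (0 : E3) 1 => fderiv ℝ Ξ (ii (x : E3)) v := by
      intro v
      have h1 : Continuous (fderiv ℝ Ξ) := hΞ.continuous_fderiv (by simp)
      have h2 : Continuous fun x : sphere (0 : E3) 1 => ii (x : E3) :=
        ii.continuous.comp continuous_subtype_val
      exact (h1.comp h2).clm_apply continuous_const
    have h1 := hasPerp_of_pair (hc (ee 4)) (hc (ee 5))
      (fun x c d h => normal_independent hΞ hreg hL x.2 c d h)
    have h2 : (fun x : sphere (0 : E3) 1 => H1 (x, 0))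
        = fun x : sphere (0 : E3) 1 => fderiv ℝ Ξ (ii (x : E3)) (ee 4) := by
      ext1 x
      exact KK_zero Ξ (ii x) (ee 4)
    rw [h2]
    exact h1
  have hp1 := HasPerp.homotopy H1 hH1 hn1 hp0
  -- second homotopy
  let H2 : sphere (0 : E3) 1 × unitInterval → E3 :=
    fun q => KK Ξ (ee 4) (ii q.1) (1 - (q.2 : ℝ))
  have hH2 : Continuous H2 := continuous_KK hΞ continuous_const (by fun_prop) (by fun_prop)
  have hz4 : Ξ (ee 4) = 0 := by
    rw [zero_iff hL]
    exact Or.inr ⟨by simp [ee], by simp [ee], by simp [ee]⟩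
  have hsurj := linear_onto hΞ hreg hL
  have hn2 : ∀ q, H2 q ≠ 0 := by
    rintro ⟨x, s⟩ h
    change KK Ξ (ee 4) (ii x) (1 - (s : ℝ)) = 0 at h
    have hx0 : (x : E3) ≠ 0 := by
      intro h0
      have := x.2
      rw [h0] at this
      simp at this
    by_cases hs : 1 - (s : ℝ) = 0
    · rw [hs, KK_zero] at h
      have hinj : Function.Injective ((fderiv ℝ Ξ (ee 4)).comp ii : E3 →ₗ[ℝ] E3) :=
        LinearMap.injective_iff_surjective.2 hsurj
      apply hx0
      apply hinj
      rw [map_zero]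
      exact h
    · have h1 := smul_KK hΞ (ee 4) (ii x) (1 - (s : ℝ))
      rw [h, smul_zero, hz4, sub_zero] at h1
      have h2 := (zero_iff hL _).1 h1.symm
      rcases h2 with h2 | h2
      · have := h2.2.1
        simp [ii_apply, ee] at this
      · obtain ⟨a0, a1, a2⟩ := h2
        simp [ii_apply, ee] at a0 a1 a2
        apply hx0
        ext i
        fin_cases i
        · exact a0.resolve_left hs
        · exact a1.resolve_left hs
        · exact a2.resolve_left hs
  have hp2 : HasPerp fun x => H2 (x, 0) := by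
    have h2 : (fun x : sphere (0 : E3) 1 => H2 (x, 0)) = fun x => H1 (x, 1) := by
      ext1 x
      show KK Ξ (ee 4) (ii x) (1 - ((0 : unitInterval) : ℝ)) = KK Ξ (ii x) (ee 4) ((1 : unitInterval) : ℝ)
      have e1 := smul_KK hΞ (ee 4) (ii x) 1
      have e2 := smul_KK hΞ (ii x) (ee 4) 1
      rw [one_smul, one_smul, hz4, sub_zero] at e1
      rw [one_smul, one_smul, hz x, sub_zero] at e2
      simp only [Set.Icc.coe_zero, Set.Icc.coe_one, sub_zero]
      rw [e1, e2, add_comm]
    rw [h2]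
    exact hp1
  have hp3 := HasPerp.homotopy H2 hH2 hn2 hp2
  refine not_hasPerp_linear ((fderiv ℝ Ξ (ee 4)).comp ii) hsurj ?_
  have h2 : (fun x : sphere (0 : E3) 1 => H2 (x, 1))
      = fun x : sphere (0 : E3) 1 => ((fderiv ℝ Ξ (ee 4)).comp ii) (x : E3) := by
    ext1 x
    show KK Ξ (ee 4) (ii x) (1 - ((1 : unitInterval) : ℝ)) = _
    simp only [Set.Icc.coe_one, sub_self]
    rw [KK_zero]
    rfl
  rw [← h2]
  exact hp3

end

theorem not_completeIntersection : ¬ IsCompleteIntersection 3 3 LL := by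
  rintro ⟨Ξ, hΞ, hreg, hL⟩
  exact contradiction_LL hΞ hreg hL

end Pool.Agent.V11196.WI
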